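import Pool.Agent.helper40.TW.SpecG
import Pool.Agent.helper17.BQ.KLU

set_option autoImplicit false

open Complex MeasureTheory Metric
open scoped ComplexConjugate ArithmeticFunction.vonMangoldt

namespace Pool.Agent.TWG

open Pool.Agent.helper6.LD (wt)
open Pool.Agent.helper85.BVP (ex)
open Pool.Agent.TW (Win Pw)

theorem RSM_units (r : ℕ) [NeZero r] (F : ZMod r → ℂ) :
    ∑ b : ZMod r, (if IsUnit b then F b else 0)
      = ∑ b ∈ (Finset.range r).filter (fun b => Nat.Coprime b r), F (b : ZMod r) := by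
  classical
  rw [Finset.sum_filter]
  have h1 : ∑ b ∈ Finset.range r, (if Nat.Coprime b r then F (b : ZMod r) else 0)
      = ∑ b ∈ Finset.range r, (fun x : ZMod r => if IsUnit x then F x else 0) (b : ZMod r) := by
    refine Finset.sum_congr rfl fun b _ => ?_
    simp only [ZMod.isUnit_iff_coprime]
  rw [h1]
  symm
  refine Finset.sum_bij (fun b _ => (b : ZMod r)) (fun _ _ => Finset.mem_univ _) ?_ ?_
    (fun _ _ => rfl)
  · intro b hb b' hb' h
    rw [Finset.mem_range] at hb hb'
    have := (ZMod.natCast_eq_natCast_iff' b b' r).mp h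
    rwa [Nat.mod_eq_of_lt hb, Nat.mod_eq_of_lt hb'] at this
  · intro x _
    exact ⟨x.val, Finset.mem_range.mpr (ZMod.val_lt x), ZMod.natCast_zmod_val x⟩

theorem RSM : RSM_stmt := by
  intro r _ hr
  have hr1 : 1 ≤ r := Nat.one_le_iff_ne_zero.2 (NeZero.ne r)
  have hK := Pool.Agent.BQ.KLU r 1 hr1
  have hc : Pool.Agent.BQ.cR r 1 = ((ArithmeticFunction.moebius r : ℤ) : ℝ) := by
    unfold Pool.Agent.BQ.cR
    have hs : r.divisors.filter (fun d : ℕ => (d : ℤ) ∣ 1) = {1} := by
      ext d
      rw [Finset.mem_filter, Nat.mem_divisors, Finset.mem_singleton]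
      constructor
      · intro h
        have h2 : (d : ℤ) ∣ ((1 : ℕ) : ℤ) := by exact_mod_cast h.2
        exact Nat.dvd_one.1 (Int.natCast_dvd_natCast.1 h2)
      · rintro rfl
        exact ⟨⟨one_dvd _, NeZero.ne r⟩, by norm_num⟩
    rw [hs, Finset.sum_singleton, Nat.div_one, Nat.cast_one, one_mul]
  have hsum : ∑ b : ZMod r, (if IsUnit b then (ZMod.stdAddChar b : ℂ) else 0) =
      (Pool.Agent.BQ.cR r 1 : ℂ) := by
    rw [RSM_units r (fun b => (ZMod.stdAddChar b : ℂ)), hK]
    refine Finset.sum_congr rfl fun b _ => ?_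
    have h := Pool.Agent.helper85.MT.std_eq_ex r b 1
    rw [Nat.cast_one, mul_one, Nat.cast_one, one_mul] at h
    rw [h]
    unfold Pool.Agent.helper85.BVP.ex Pool.Agent.helper74.TG.ee
    congr 1
    push_cast
    ring
  rw [hsum, hc, Complex.norm_real, Real.norm_eq_abs]
  have h1 : |(ArithmeticFunction.moebius r : ℤ)| = 1 :=
    ArithmeticFunction.abs_moebius_eq_one_of_squarefree hr
  exact_mod_cast h1

end Pool.Agent.TWG
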